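import Mathlib

/-!
The signed independence polynomial of a finite graph, its monotonicity properties in the Shearer
region, and the move by which a player keeps a position inside that region.
-/

set_option autoImplicit false
set_option linter.unusedSectionVars false
open Finset

namespace Pool.Agent.H64MD

variable {V : Type} [DecidableEq V] (G : SimpleGraph V) [DecidableRel G.Adj]

/-- `∑_{I ⊆ Q independent} ∏_{v ∈ I} (-p v)` -/
def Z (p : V → ℝ) (Q : Finset V) : ℝ :=
  ∑ I ∈ Q.powerset, if (∀ a ∈ I, ∀ b ∈ I, ¬ G.Adj a b) then ∏ v ∈ I, (-p v) else 0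

/-- the part of `Q` outside the neighbourhood of `t` -/
def off (t : V) (Q : Finset V) : Finset V := Q.filter (fun w => ¬ G.Adj t w)

variable {G}

theorem off_subset (t : V) (Q : Finset V) : off G t Q ⊆ Q := filter_subset _ _

theorem off_mono (t : V) {Q R : Finset V} (h : Q ⊆ R) : off G t Q ⊆ off G t R :=
  filter_subset_filter _ h

theorem off_comm (t z : V) (Q : Finset V) : off G t (off G z Q) = off G z (off G t Q) := by
  unfold off
  rw [filter_filter, filter_filter]
  refine filter_congr fun w _ => ?_
  tauto

theorem off_insert_of_adj {t z : V} (h : G.Adj t z) (Q : Finset V) :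
    off G t (insert z Q) = off G t Q := by
  unfold off
  rw [filter_insert, if_neg (by simpa using h)]

theorem off_insert_of_not_adj {t z : V} (h : ¬ G.Adj t z) (Q : Finset V) :
    off G t (insert z Q) = insert z (off G t Q) := by
  unfold off
  rw [filter_insert, if_pos h]

theorem Z_empty (p : V → ℝ) : Z G p ∅ = 1 := by
  simp [Z]

theorem Z_congr {p q : V → ℝ} {Q : Finset V} (h : ∀ v ∈ Q, p v = q v) : Z G p Q = Z G q Q := by
  unfold Z
  refine sum_congr rfl fun I hI => ?_
  have : ∏ v ∈ I, (-p v) = ∏ v ∈ I, (-q v) :=
    prod_congr rfl fun v hv => by rw [h v (mem_powerset.1 hI hv)]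
  rw [this]

theorem Z_insert (p : V → ℝ) {v : V} {Q : Finset V} (hv : v ∉ Q) :
    Z G p (insert v Q) = Z G p Q - p v * Z G p (off G v Q) := by
  unfold Z
  rw [sum_powerset_insert hv, sub_eq_add_neg]
  congr 1
  have hsub : (off G v Q).powerset ⊆ Q.powerset := powerset_mono.2 (off_subset v Q)
  rw [← neg_mul, mul_sum, ← sum_subset hsub]
  · refine sum_congr rfl fun I hI => ?_
    rw [mem_powerset] at hI
    have hvI : v ∉ I := fun h => hv (off_subset v Q (hI h))
    have hiff : (∀ a ∈ insert v I, ∀ b ∈ insert v I, ¬ G.Adj a b) ↔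
        (∀ a ∈ I, ∀ b ∈ I, ¬ G.Adj a b) := by
      constructor
      · exact fun h a ha b hb => h a (mem_insert_of_mem ha) b (mem_insert_of_mem hb)
      · intro h a ha b hb
        have hadj : ∀ w ∈ I, ¬ G.Adj v w := fun w hw => (mem_filter.1 (hI hw)).2
        rcases mem_insert.1 ha with ha | ha
        · rcases mem_insert.1 hb with hb | hb
          · rw [ha, hb]; exact G.loopless.irrefl v
          · rw [ha]; exact hadj b hb
        · rcases mem_insert.1 hb with hb | hb
          · rw [hb]; exact fun h' => hadj a ha h'.symm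
          · exact h a ha b hb
    by_cases hi : ∀ a ∈ I, ∀ b ∈ I, ¬ G.Adj a b
    · rw [if_pos hi, if_pos (hiff.2 hi), prod_insert hvI]
    · rw [if_neg hi, if_neg (fun h => hi (hiff.1 h)), mul_zero]
  · intro I hI hI'
    rw [mem_powerset] at hI hI'
    rw [if_neg]
    intro h
    apply hI'
    intro w hw
    exact mem_filter.2 ⟨hI hw, h v (mem_insert_self _ _) w (mem_insert_of_mem hw)⟩

/-- the Shearer region -/
def Reg (G : SimpleGraph V) [DecidableRel G.Adj] (p : V → ℝ) : Prop :=
  (∀ v, 0 ≤ p v) ∧ ∀ Q, 0 < Z G p Q

theorem Reg.insert_le {p : V → ℝ} (h : Reg G p) (z : V) (Q : Finset V) :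
    Z G p (insert z Q) ≤ Z G p Q := by
  by_cases hz : z ∈ Q
  · rw [insert_eq_of_mem hz]
  · rw [Z_insert p hz]
    have := mul_nonneg (h.1 z) (h.2 (off G z Q)).le
    linarith

/-- ratios over a neighbourhood are monotone -/
theorem Reg.ratio_mono {p : V → ℝ} (h : Reg G p) : ∀ (n : ℕ) (Y Y' : Finset V), Y ⊆ Y' →
    Y'.card ≤ n → ∀ t, Z G p (off G t Y) / Z G p Y ≤ Z G p (off G t Y') / Z G p Y' := by
  intro n
  induction n with
  | zero =>
    intro Y Y' hY hc t
    have h1 : Y' = ∅ := card_eq_zero.1 (by omega)
    subst h1
    rw [subset_empty.1 hY]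
  | succ n ih =>
    intro Y Y' hY hc t
    by_cases heq : Y = Y'
    · rw [heq]
    obtain ⟨z, hzY', hzY⟩ : ∃ z ∈ Y', z ∉ Y := by
      by_contra hcon
      push Not at hcon
      exact heq (hY.antisymm hcon)
    set W := Y'.erase z with hW
    have hYW : Y ⊆ W := fun w hw => mem_erase.2 ⟨fun e => hzY (e ▸ hw), hY hw⟩
    have hcW : W.card ≤ n := by
      rw [hW, card_erase_of_mem hzY']
      omega
    have hzW : z ∉ W := notMem_erase z Y'
    have hWY : Y' = insert z W := (insert_erase hzY').symm
    refine (ih Y W hYW hcW t).trans ?_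
    rw [hWY, div_le_div_iff₀ (h.2 _) (h.2 _)]
    by_cases hadj : G.Adj t z
    · rw [off_insert_of_adj hadj]
      exact mul_le_mul_of_nonneg_left (h.insert_le z W) (h.2 _).le
    · have hzF : z ∉ off G t W := fun h' => hzW (off_subset t W h')
      rw [off_insert_of_not_adj hadj, Z_insert p hzW, Z_insert p hzF]
      have h1 := ih (off G t W) W (off_subset t W) hcW z
      rw [div_le_div_iff₀ (h.2 _) (h.2 _)] at h1
      have h2 := mul_le_mul_of_nonneg_left h1 (h.1 z)
      nlinarith

/-- the value of the polynomial, in terms of the part away from an edge `u v` -/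
theorem Z_edge {q : V → ℝ} (hq : ∀ v, 0 ≤ q v) {u v : V} (huv : G.Adj u v)
    {W Q : Finset V} (hW : W = (Q.erase u).erase v) (hpos : ∀ R, R ⊆ W → 0 < Z G q R) :
    Z G q W - q u * Z G q (off G u W) - q v * Z G q (off G v W) ≤ Z G q Q := by
  have hu : u ∉ W := by rw [hW]; simp
  have hv : v ∉ W := by rw [hW]; simp
  have huv' : u ≠ v := huv.ne
  have a1 := mul_nonneg (hq u) (hpos (off G u W) (off_subset u W)).le
  have a2 := mul_nonneg (hq v) (hpos (off G v W) (off_subset v W)).le
  have ev : Z G q (insert v W) = Z G q W - q v * Z G q (off G v W) := Z_insert (G := G) q hv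
  have eu : Z G q (insert u W) = Z G q W - q u * Z G q (off G u W) := Z_insert (G := G) q hu
  have euv : Z G q (insert u (insert v W)) =
      Z G q W - q v * Z G q (off G v W) - q u * Z G q (off G u W) := by
    rw [Z_insert q (by simp [huv', hu]), ev, off_insert_of_adj huv]
  by_cases h1 : u ∈ Q <;> by_cases h2 : v ∈ Q
  · have : Q = insert u (insert v W) := by
      ext w
      rw [hW]
      simp only [mem_insert, mem_erase]
      by_cases hw1 : w = u
      · simp [hw1, h1]
      · by_cases hw2 : w = v
        · simp [hw2, h2]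
        · simp [hw1, hw2]
    rw [this, euv]
    linarith
  · have : Q = insert u W := by
      ext w
      rw [hW]
      simp only [mem_insert, mem_erase]
      by_cases hw1 : w = u
      · simp [hw1, h1]
      · by_cases hw2 : w = v
        · simp [hw2, h2, huv'.symm]
        · simp [hw1, hw2]
    rw [this, eu]
    linarith
  · have : Q = insert v W := by
      ext w
      rw [hW]
      simp only [mem_insert, mem_erase]
      by_cases hw1 : w = u
      · simp [hw1, h1, huv']
      · by_cases hw2 : w = v
        · simp [hw2, h2]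
        · simp [hw1, hw2]
    rw [this, ev]
    linarith
  · have : Q = W := by
      ext w
      rw [hW]
      simp only [mem_erase]
      by_cases hw1 : w = u
      · simp [hw1, h1]
      · by_cases hw2 : w = v
        · simp [hw2, h2]
        · simp [hw1, hw2]
    rw [this]
    linarith

/-- the value on the whole vertex set, exact form -/
theorem Z_edge_univ {q : V → ℝ} {u v : V} (huv : G.Adj u v) {W Q : Finset V}
    (hW : W = (Q.erase u).erase v) (hu : u ∈ Q) (hv : v ∈ Q) :
    Z G q Q = Z G q W - q u * Z G q (off G u W) - q v * Z G q (off G v W) := by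
  have hu' : u ∉ W := by rw [hW]; simp
  have hv' : v ∉ W := by rw [hW]; simp
  have huv' : u ≠ v := huv.ne
  have : Q = insert u (insert v W) := by
    ext w
    rw [hW]
    simp only [mem_insert, mem_erase]
    by_cases hw1 : w = u
    · simp [hw1, hu]
    · by_cases hw2 : w = v
      · simp [hw2, hv]
      · simp [hw1, hw2]
  rw [this, Z_insert q (by simp [huv', hu']), off_insert_of_adj huv, Z_insert q hv']
  ring

/-- one round: of two options for the weights at the two ends of an edge whose average does not
exceed the present weights, one stays in the Shearer region -/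
theorem Reg.step [Fintype V] {p q q' : V → ℝ} (h : Reg G p) {u v : V} (huv : G.Adj u v)
    (hq : ∀ w, 0 ≤ q w) (hq' : ∀ w, 0 ≤ q' w)
    (e : ∀ w, w ≠ u → w ≠ v → q w = p w) (e' : ∀ w, w ≠ u → w ≠ v → q' w = p w)
    (hu : q u + q' u ≤ 2 * p u) (hv : q v + q' v ≤ 2 * p v) : Reg G q ∨ Reg G q' := by
  set K : Finset V := (univ.erase u).erase v with hK
  have key : ∀ r : V → ℝ, (∀ w, 0 ≤ r w) → (∀ w, w ≠ u → w ≠ v → r w = p w) →
      0 < Z G p K - r u * Z G p (off G u K) - r v * Z G p (off G v K) → Reg G r := by
    intro r hr er hpos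
    refine ⟨hr, fun Q => ?_⟩
    set W : Finset V := (Q.erase u).erase v with hW
    have hWK : W ⊆ K := by
      intro w hw
      rw [hW, mem_erase, mem_erase] at hw
      rw [hK, mem_erase, mem_erase]
      exact ⟨hw.1, hw.2.1, mem_univ _⟩
    have hc : ∀ R, R ⊆ W → Z G r R = Z G p R := by
      intro R hR
      refine Z_congr fun w hw => ?_
      have := hR hw
      rw [hW, mem_erase, mem_erase] at this
      exact er w this.2.1 this.1
    have h1 := Z_edge (G := G) (q := r) hr huv hW (fun R hR => by rw [hc R hR]; exact h.2 R)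
    rw [hc W subset_rfl, hc _ (off_subset u W), hc _ (off_subset v W)] at h1
    refine lt_of_lt_of_le ?_ h1
    have m1 := h.ratio_mono _ W K hWK le_rfl u
    have m2 := h.ratio_mono _ W K hWK le_rfl v
    have pK := h.2 K
    have pW := h.2 W
    have h2 : 0 < 1 - r u * (Z G p (off G u K) / Z G p K) -
        r v * (Z G p (off G v K) / Z G p K) := by
      have : 1 - r u * (Z G p (off G u K) / Z G p K) - r v * (Z G p (off G v K) / Z G p K) =
          (Z G p K - r u * Z G p (off G u K) - r v * Z G p (off G v K)) / Z G p K := by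
        field_simp
      rw [this]
      exact div_pos hpos pK
    have h3 : 0 < 1 - r u * (Z G p (off G u W) / Z G p W) -
        r v * (Z G p (off G v W) / Z G p W) := by
      have b1 := mul_le_mul_of_nonneg_left m1 (hr u)
      have b2 := mul_le_mul_of_nonneg_left m2 (hr v)
      linarith
    have h4 : Z G p W - r u * Z G p (off G u W) - r v * Z G p (off G v W) =
        (1 - r u * (Z G p (off G u W) / Z G p W) -
        r v * (Z G p (off G v W) / Z G p W)) * Z G p W := by
      field_simp
    rw [h4]
    exact mul_pos h3 pW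
  have hsum : 0 < Z G p K - p u * Z G p (off G u K) - p v * Z G p (off G v K) := by
    rw [← Z_edge_univ huv hK (mem_univ u) (mem_univ v)]
    exact h.2 univ
  have c1 := h.2 (off G u K)
  have c2 := h.2 (off G v K)
  have d1 := mul_le_mul_of_nonneg_right hu c1.le
  have d2 := mul_le_mul_of_nonneg_right hv c2.le
  by_cases h1 : 0 < Z G p K - q u * Z G p (off G u K) - q v * Z G p (off G v K)
  · exact Or.inl (key q hq e h1)
  · right
    refine key q' hq' e' ?_
    push Not at h1
    nlinarith

theorem Reg.lt_one {p : V → ℝ} (h : Reg G p) (v : V) : p v < 1 := by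
  have h1 := h.2 (insert v ∅)
  rw [Z_insert p (notMem_empty v), Z_empty] at h1
  have : off G v ∅ = ∅ := by simp [off]
  rw [this, Z_empty] at h1
  linarith

/-- the condition of the local lemma puts the weights into the Shearer region -/
theorem reg_of_lll [Fintype V] {p x : V → ℝ} (hp : ∀ v, 0 ≤ p v) (hx0 : ∀ v, 0 ≤ x v)
    (hx1 : ∀ v, x v < 1)
    (h : ∀ v, p v ≤ x v * ∏ w ∈ univ.filter (fun w => G.Adj v w), (1 - x w)) : Reg G p := by
  have main : ∀ (n : ℕ) (Q : Finset V), Q.card ≤ n →
      0 < Z G p Q ∧ ∀ v ∉ Q, (1 - x v) * Z G p Q ≤ Z G p (insert v Q) := by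
    intro n
    induction n with
    | zero =>
      intro Q hQ
      have h1 : Q = ∅ := card_eq_zero.1 (by omega)
      subst h1
      refine ⟨by rw [Z_empty]; exact one_pos, fun v hv => ?_⟩
      have : off G v ∅ = ∅ := by simp [off]
      rw [Z_insert p hv, this, Z_empty]
      have h2 : ∏ w ∈ univ.filter (fun w => G.Adj v w), (1 - x w) ≤ 1 :=
        prod_le_one (fun w _ => by linarith [hx1 w]) (fun w _ => by linarith [hx0 w])
      have h3 := mul_le_mul_of_nonneg_left h2 (hx0 v)
      linarith [h v]
    | succ n ih =>
      intro Q hQ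
      have hposQ : 0 < Z G p Q := by
        rcases Q.eq_empty_or_nonempty with rfl | ⟨z, hz⟩
        · rw [Z_empty]; exact one_pos
        · have hc : (Q.erase z).card ≤ n := by
            rw [card_erase_of_mem hz]; omega
          obtain ⟨h1, h2⟩ := ih _ hc
          have h3 := h2 z (notMem_erase z Q)
          rw [insert_erase hz] at h3
          exact lt_of_lt_of_le (mul_pos (by linarith [hx1 z]) h1) h3
      refine ⟨hposQ, fun v hv => ?_⟩
      -- adding the neighbours one at a time
      have chain : ∀ S : Finset V, S ⊆ Q → Disjoint S (off G v Q) →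
          (∏ w ∈ S, (1 - x w)) * Z G p (off G v Q) ≤ Z G p (S ∪ off G v Q) := by
        intro S
        induction S using Finset.induction_on with
        | empty => intro _ _; simp
        | insert z S hz ihS =>
          intro hS hd
          have hS' : S ⊆ Q := fun w hw => hS (mem_insert_of_mem hw)
          have hd' : Disjoint S (off G v Q) := hd.mono_left (subset_insert _ _)
          have hzo : z ∉ off G v Q := disjoint_left.1 hd (mem_insert_self _ _)
          have h1 := ihS hS' hd'
          have hzQ : z ∈ Q := hS (mem_insert_self _ _)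
          have hzn : z ∉ S ∪ off G v Q := by simp [hz, hzo]
          have hsub : S ∪ off G v Q ⊆ Q.erase z := by
            intro w hw
            refine mem_erase.2 ⟨fun e => hzn (e ▸ hw), ?_⟩
            rcases mem_union.1 hw with hw | hw
            · exact hS' hw
            · exact off_subset v Q hw
          have hc : (S ∪ off G v Q).card ≤ n := by
            have := card_le_card hsub
            rw [card_erase_of_mem hzQ] at this
            omega
          obtain ⟨_, h2⟩ := ih _ hc
          have h3 := h2 z hzn
          rw [prod_insert hz, insert_union]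
          refine le_trans ?_ h3
          rw [mul_assoc]
          exact mul_le_mul_of_nonneg_left h1 (by linarith [hx1 z])
      have hsd : (Q \ off G v Q) ∪ off G v Q = Q := by
        ext w
        simp only [mem_union, mem_sdiff]
        constructor
        · rintro (h1 | h1)
          · exact h1.1
          · exact off_subset v Q h1
        · intro h1
          by_cases h2 : w ∈ off G v Q
          · exact Or.inr h2
          · exact Or.inl ⟨h1, h2⟩
      have h1 := chain (Q \ off G v Q) sdiff_subset sdiff_disjoint
      rw [hsd] at h1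
      have hposO : 0 ≤ Z G p (off G v Q) := by
        by_cases hcard : off G v Q = Q
        · rw [hcard]; exact hposQ.le
        · have hlt : (off G v Q).card < Q.card :=
            card_lt_card (lt_of_le_of_ne (off_subset v Q) hcard)
          exact (ih _ (by omega)).1.le
      have hprod : ∏ w ∈ univ.filter (fun w => G.Adj v w), (1 - x w) ≤
          ∏ w ∈ Q \ off G v Q, (1 - x w) := by
        have hsub : Q \ off G v Q ⊆ univ.filter (fun w => G.Adj v w) := by
          intro w hw
          rw [mem_sdiff] at hw
          refine mem_filter.2 ⟨mem_univ _, ?_⟩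
          by_contra hcon
          exact hw.2 (mem_filter.2 ⟨hw.1, hcon⟩)
        rw [← prod_sdiff hsub]
        have h5 : ∏ w ∈ univ.filter (fun w => G.Adj v w) \ (Q \ off G v Q), (1 - x w) ≤ 1 :=
          prod_le_one (fun w _ => by linarith [hx1 w]) (fun w _ => by linarith [hx0 w])
        have h6 : 0 ≤ ∏ w ∈ Q \ off G v Q, (1 - x w) :=
          prod_nonneg fun w _ => by linarith [hx1 w]
        nlinarith
      rw [Z_insert p hv]
      have h7 : p v * Z G p (off G v Q) ≤ x v * Z G p Q := by
        calc p v * Z G p (off G v Q)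
            ≤ (x v * ∏ w ∈ Q \ off G v Q, (1 - x w)) * Z G p (off G v Q) := by
              refine mul_le_mul_of_nonneg_right ((h v).trans ?_) hposO
              exact mul_le_mul_of_nonneg_left hprod (hx0 v)
          _ = x v * ((∏ w ∈ Q \ off G v Q, (1 - x w)) * Z G p (off G v Q)) := by ring
          _ ≤ x v * Z G p Q := mul_le_mul_of_nonneg_left h1 (hx0 v)
      linarith
  exact ⟨hp, fun Q => (main Q.card Q le_rfl).1⟩

end Pool.Agent.H64MD
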