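import Pool.Agent.H64MD.Shearer
import Pool.Agent.helper36.MD.Final

/-!
Maker's strategy in the degree game: the weights at the vertices stay in the Shearer region.
-/

set_option autoImplicit false
set_option linter.unusedSectionVars false
open Finset

namespace Pool.Agent.H64MD

open Pool.Agent.helper36.MD

/-- the weight of a vertex of degree `D` at which `ρ` edges of Breaker have been answered and
`ν` have not -/
noncomputable def wt (ε : ℝ) (D ρ ν : ℕ) : ℝ :=
  Real.exp (ε * ((ν : ℝ) - ρ) - ε ^ 2 / 2 * ((ν : ℝ) + ρ) - ε ^ 2 / 2 * D)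

theorem wt_pos (ε : ℝ) (D ρ ν : ℕ) : 0 < wt ε D ρ ν := Real.exp_pos _

theorem wt_avg (ε : ℝ) (D ρ ν : ℕ) :
    wt ε D (ρ + 1) ν + wt ε D ρ (ν + 1) ≤ 2 * wt ε D ρ ν := by
  have h1 : wt ε D (ρ + 1) ν = wt ε D ρ ν * (Real.exp (-(ε ^ 2 / 2)) * Real.exp (-ε)) := by
    unfold wt
    rw [← Real.exp_add, ← Real.exp_add]
    congr 1
    push_cast
    ring
  have h2 : wt ε D ρ (ν + 1) = wt ε D ρ ν * (Real.exp (-(ε ^ 2 / 2)) * Real.exp ε) := by
    unfold wt
    rw [← Real.exp_add, ← Real.exp_add]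
    congr 1
    push_cast
    ring
  have h3 := Real.cosh_le_exp_half_sq ε
  rw [Real.cosh_eq] at h3
  have h4 : Real.exp (-(ε ^ 2 / 2)) * Real.exp (ε ^ 2 / 2) = 1 := by
    rw [← Real.exp_add]
    simp
  have h5 : Real.exp (-(ε ^ 2 / 2)) * (Real.exp ε + Real.exp (-ε)) ≤ 2 := by
    have : Real.exp (-(ε ^ 2 / 2)) * (Real.exp ε + Real.exp (-ε)) ≤
        Real.exp (-(ε ^ 2 / 2)) * (2 * Real.exp (ε ^ 2 / 2)) :=
      mul_le_mul_of_nonneg_left (by linarith) (Real.exp_pos _).le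
    linarith
  rw [h1, h2]
  have h6 := mul_le_mul_of_nonneg_left h5 (wt_pos ε D ρ ν).le
  linarith

variable {V : Type} [Fintype V] [DecidableEq V] (G : SimpleGraph V) [DecidableRel G.Adj]

/-- the invariant of Maker: `ρ v` of the Breaker edges at `v` have been answered at `v` -/
structure Pos (ε : ℝ) (M B : Finset (Sym2 V)) (ρ ν : V → ℕ) : Prop where
  sum : ∀ v, ρ v + ν v = dg e1 e2 B v
  le1 : ∀ v, ρ v ≤ dg e1 e2 M v + 1
  le2 : ∀ v, (∃ e ∈ G.edgeFinset, (e1 e = v ∨ e2 e = v) ∧ e ∉ M ∧ e ∉ B) → ρ v ≤ dg e1 e2 M v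
  reg : Reg G (fun v => wt ε (G.degree v) (ρ v) (ν v))

variable {G}

theorem Pos.extra {ε : ℝ} {M M' B : Finset (Sym2 V)} {ρ ν : V → ℕ} (h : Pos G ε M B ρ ν)
    (hM : M ⊆ M') : Pos G ε M' B ρ ν := by
  refine ⟨h.sum, fun v => (h.le1 v).trans ?_, fun v hv => ?_, h.reg⟩
  · have := dg_mono (s := e1) (t := e2) hM v
    omega
  · obtain ⟨e, he, h1, h2, h3⟩ := hv
    exact (h.le2 v ⟨e, he, h1, fun h' => h2 (hM h'), h3⟩).trans (dg_mono hM v)

theorem Pos.update {ε : ℝ} {M M' B : Finset (Sym2 V)} {ρ ν : V → ℕ} (h : Pos G ε M B ρ ν)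
    {f : Sym2 V} (hf : f ∈ G.edgeFinset) (hfM : f ∉ M) (hfB : f ∉ B) {s t : V} (hst : s ≠ t)
    (hends : ∀ w, (e1 f = w ∨ e2 f = w) ↔ (w = s ∨ w = t))
    (hreg : Reg G (fun v => wt ε (G.degree v) (Function.update ρ s (ρ s + 1) v)
      (Function.update ν t (ν t + 1) v)))
    (hM : M ⊆ M')
    (hs : (∃ e ∈ G.edgeFinset, (e1 e = s ∨ e2 e = s) ∧ e ∉ M' ∧ e ∉ insert f B) →
      ρ s + 1 ≤ dg e1 e2 M' s) :
    Pos G ε M' (insert f B) (Function.update ρ s (ρ s + 1)) (Function.update ν t (ν t + 1)) := by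
  have hfs : ρ s ≤ dg e1 e2 M s := h.le2 s ⟨f, hf, (hends s).2 (Or.inl rfl), hfM, hfB⟩
  refine ⟨fun v => ?_, fun v => ?_, fun v hv => ?_, hreg⟩
  · rw [dg_insert hfB, ← h.sum v]
    by_cases h1 : v = s
    · subst h1
      rw [if_pos ((hends v).2 (Or.inl rfl)), Function.update_self, Function.update_of_ne hst]
      omega
    · by_cases h2 : v = t
      · subst h2
        rw [if_pos ((hends v).2 (Or.inr rfl)), Function.update_self, Function.update_of_ne h1]
        omega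
      · have h3 : ¬ (e1 f = v ∨ e2 f = v) := by
          intro h'
          rcases (hends v).1 h' with h' | h'
          · exact h1 h'
          · exact h2 h'
        rw [if_neg h3, Function.update_of_ne h1, Function.update_of_ne h2, add_zero]
  · have hm := dg_mono (s := e1) (t := e2) hM v
    by_cases h1 : v = s
    · subst h1
      rw [Function.update_self]
      omega
    · rw [Function.update_of_ne h1]
      have := h.le1 v
      omega
  · by_cases h1 : v = s
    · subst h1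
      rw [Function.update_self]
      exact hs hv
    · rw [Function.update_of_ne h1]
      obtain ⟨e, he, h2, h3, h4⟩ := hv
      exact (h.le2 v ⟨e, he, h2, fun h' => h3 (hM h'), fun h' => h4 (mem_insert_of_mem h')⟩).trans
        (dg_mono hM v)

theorem Pos.reply {ε : ℝ} {M B : Finset (Sym2 V)} {ρ ν : V → ℕ} (h : Pos G ε M B ρ ν)
    {f : Sym2 V} (hf : f ∈ G.edgeFinset) (hfM : f ∉ M) (hfB : f ∉ B) {s t : V} (hst : s ≠ t)
    (hends : ∀ w, (e1 f = w ∨ e2 f = w) ↔ (w = s ∨ w = t))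
    (hreg : Reg G (fun v => wt ε (G.degree v) (Function.update ρ s (ρ s + 1) v)
      (Function.update ν t (ν t + 1) v))) :
    (∃ e ∈ G.edgeFinset, e ∉ M ∧ e ∉ insert f B ∧ ∃ ρ' ν', Pos G ε (insert e M) (insert f B) ρ' ν') ∨
    (G.edgeFinset ⊆ M ∪ insert f B ∧ ∃ ρ' ν', Pos G ε M (insert f B) ρ' ν') := by
  have hfs : ρ s ≤ dg e1 e2 M s := h.le2 s ⟨f, hf, (hends s).2 (Or.inl rfl), hfM, hfB⟩
  by_cases h1 : ∃ e ∈ G.edgeFinset, (e1 e = s ∨ e2 e = s) ∧ e ∉ M ∧ e ∉ insert f B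
  · obtain ⟨e, he, h2, h3, h4⟩ := h1
    refine Or.inl ⟨e, he, h3, h4, _, _, h.update hf hfM hfB hst hends hreg
      (subset_insert _ _) fun _ => ?_⟩
    rw [dg_insert h3, if_pos h2]
    omega
  · by_cases h2 : ∃ e ∈ G.edgeFinset, e ∉ M ∧ e ∉ insert f B
    · obtain ⟨e, he, h3, h4⟩ := h2
      refine Or.inl ⟨e, he, h3, h4, _, _, h.update hf hfM hfB hst hends hreg
        (subset_insert _ _) fun h5 => ?_⟩
      exfalso
      obtain ⟨e', he', h6, h7, h8⟩ := h5
      exact h1 ⟨e', he', h6, fun h' => h7 (mem_insert_of_mem h'), h8⟩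
    · refine Or.inr ⟨?_, _, _, h.update hf hfM hfB hst hends hreg subset_rfl fun h5 => ?_⟩
      · intro e he
        by_contra hcon
        rw [mem_union, not_or] at hcon
        exact h2 ⟨e, he, hcon.1, hcon.2⟩
      · exact absurd h5 h1

/-- the strategy, on a graph for which the initial weights are in the Shearer region -/
theorem strat {ε : ℝ} (hε : 0 < ε) (hD : ∀ v, 1 ≤ ε * G.degree v)
    (h0 : Reg G (fun v => wt ε (G.degree v) 0 0)) :
    Strat G.edgeFinset (fun M _ => ∀ v,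
      (1 / 3 - ε) * (G.degree v : ℝ) ≤ (dg e1 e2 M v : ℝ)) := by
  refine ⟨fun M B => M ⊆ G.edgeFinset ∧ B ⊆ G.edgeFinset ∧ Disjoint M B ∧
    ∃ ρ ν, Pos G ε M B ρ ν, ?_, ?_, ?_, ?_, ?_⟩
  · refine ⟨empty_subset _, empty_subset _, disjoint_empty_left _, fun _ => 0, fun _ => 0, ?_⟩
    exact ⟨fun v => by rw [dg_empty], fun v => Nat.zero_le _, fun v _ => Nat.zero_le _, h0⟩
  · rintro M B ⟨h1, h2, h3, _⟩
    exact ⟨h1, h2, h3⟩
  · rintro M B ⟨h1, h2, h3, ρ, ν, h4⟩ e he heM heB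
    exact ⟨insert_subset he h1, h2, disjoint_insert_left.2 ⟨heB, h3⟩, ρ, ν,
      h4.extra (subset_insert _ _)⟩
  · rintro M B ⟨h1, h2, h3, ρ, ν, h4⟩ f hf hfM hfB
    have hne : e1 f ≠ e2 f := ends_ne G hf
    have hadj : G.Adj (e1 f) (e2 f) := by
      rw [SimpleGraph.mem_edgeFinset, ← mk_ends f, SimpleGraph.mem_edgeSet] at hf
      exact hf
    have hB' : insert f B ⊆ G.edgeFinset := insert_subset hf h2
    have hMB : Disjoint M (insert f B) := disjoint_insert_right.2 ⟨hfM, h3⟩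
    have fin : ((∃ e ∈ G.edgeFinset, e ∉ M ∧ e ∉ insert f B ∧
        ∃ ρ' ν', Pos G ε (insert e M) (insert f B) ρ' ν') ∨
        (G.edgeFinset ⊆ M ∪ insert f B ∧ ∃ ρ' ν', Pos G ε M (insert f B) ρ' ν')) →
        (∃ e ∈ G.edgeFinset, e ∉ M ∧ e ∉ insert f B ∧ (insert e M ⊆ G.edgeFinset ∧
          insert f B ⊆ G.edgeFinset ∧ Disjoint (insert e M) (insert f B) ∧
          ∃ ρ ν, Pos G ε (insert e M) (insert f B) ρ ν)) ∨
        (G.edgeFinset ⊆ M ∪ insert f B ∧ (M ⊆ G.edgeFinset ∧ insert f B ⊆ G.edgeFinset ∧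
          Disjoint M (insert f B) ∧ ∃ ρ ν, Pos G ε M (insert f B) ρ ν)) := by
      rintro (⟨e, he, a1, a2, a3⟩ | ⟨a1, a2⟩)
      · exact Or.inl ⟨e, he, a1, a2, insert_subset he h1, hB',
          disjoint_insert_left.2 ⟨a2, hMB⟩, a3⟩
      · exact Or.inr ⟨a1, h1, hB', hMB, a2⟩
    apply fin
    have hstep := h4.reg.step (u := e1 f) (v := e2 f)
      (q := fun v => wt ε (G.degree v) (Function.update ρ (e1 f) (ρ (e1 f) + 1) v)
        (Function.update ν (e2 f) (ν (e2 f) + 1) v))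
      (q' := fun v => wt ε (G.degree v) (Function.update ρ (e2 f) (ρ (e2 f) + 1) v)
        (Function.update ν (e1 f) (ν (e1 f) + 1) v))
      hadj (fun _ => (wt_pos _ _ _ _).le) (fun _ => (wt_pos _ _ _ _).le)
      (fun w hw1 hw2 => by
        simp only [Function.update_of_ne hw1, Function.update_of_ne hw2])
      (fun w hw1 hw2 => by
        simp only [Function.update_of_ne hw1, Function.update_of_ne hw2])
      (by
        simp only [Function.update_self, Function.update_of_ne hne]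
        exact wt_avg _ _ _ _)
      (by
        simp only [Function.update_self, Function.update_of_ne hne.symm]
        rw [add_comm]
        exact wt_avg _ _ _ _)
    rcases hstep with hr | hr
    · exact h4.reply hf hfM hfB hne (fun w => by
        constructor <;> rintro (h | h) <;> simp [h]) hr
    · exact h4.reply hf hfM hfB hne.symm (fun w => by
        constructor <;> rintro (h | h) <;> simp [h]) hr
  · rintro M B ⟨h1, h2, h3, ρ, ν, h4⟩ hE v
    have hsplit := dg_split (s := e1) (t := e2) h1 h2 h3 hE v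
    rw [dg_edgeFinset] at hsplit
    have hlt := h4.reg.lt_one v
    have hsum := h4.sum v
    have hle := h4.le1 v
    have hlt' : ε * ((ν v : ℝ) - ρ v) - ε ^ 2 / 2 * ((ν v : ℝ) + ρ v) -
        ε ^ 2 / 2 * (G.degree v : ℝ) < 0 := by
      have : wt ε (G.degree v) (ρ v) (ν v) < 1 := hlt
      unfold wt at this
      exact Real.exp_lt_one_iff.1 this
    have e1' : (ρ v : ℝ) + ν v = dg e1 e2 B v := by exact_mod_cast hsum
    have e2' : (dg e1 e2 M v : ℝ) + dg e1 e2 B v = G.degree v := by exact_mod_cast hsplit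
    have e3' : (ρ v : ℝ) ≤ dg e1 e2 M v + 1 := by exact_mod_cast hle
    have hM0 : (0 : ℝ) ≤ dg e1 e2 M v := by positivity
    have hB : (ν v : ℝ) + ρ v ≤ G.degree v := by linarith
    have h5 : ε * ((ν v : ℝ) - ρ v) < ε * (ε * G.degree v) := by
      have : ε ^ 2 / 2 * ((ν v : ℝ) + ρ v) ≤ ε ^ 2 / 2 * G.degree v :=
        mul_le_mul_of_nonneg_left hB (by positivity)
      nlinarith
    have h6 : (ν v : ℝ) - ρ v < ε * G.degree v := lt_of_mul_lt_mul_left h5 hε.le
    have h7 := hD v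
    linarith

/-- the initial weights are in the Shearer region if all degrees are large -/
theorem reg_start {ε : ℝ} (hε : 0 < ε) {d : ℕ} (hd : 1 ≤ d)
    (hdε : Real.exp (-(ε ^ 2 / 4 * d)) ≤ 1 - Real.exp (-(ε ^ 2 / 4)))
    (hG : ∀ v, d ≤ G.degree v) : Reg G (fun v => wt ε (G.degree v) 0 0) := by
  have hx : ∀ v, Real.exp (-(ε ^ 2 / 4 * G.degree v)) ≤ Real.exp (-(ε ^ 2 / 4 * d)) := by
    intro v
    refine Real.exp_le_exp.2 (neg_le_neg ?_)
    exact mul_le_mul_of_nonneg_left (by exact_mod_cast hG v) (by positivity)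
  refine reg_of_lll (x := fun v => Real.exp (-(ε ^ 2 / 4 * G.degree v)))
    (fun _ => (wt_pos _ _ _ _).le) (fun _ => (Real.exp_pos _).le) (fun v => ?_) (fun v => ?_)
  · refine Real.exp_lt_one_iff.2 ?_
    have : 0 < (G.degree v : ℝ) := by exact_mod_cast lt_of_lt_of_le hd (hG v)
    have : 0 < ε ^ 2 / 4 * (G.degree v : ℝ) := by positivity
    linarith
  · have h1 : wt ε (G.degree v) 0 0 =
        Real.exp (-(ε ^ 2 / 4 * G.degree v)) * (Real.exp (-(ε ^ 2 / 4))) ^ (G.degree v) := by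
      unfold wt
      rw [← Real.exp_nat_mul, ← Real.exp_add]
      congr 1
      push_cast
      ring
    show wt ε (G.degree v) 0 0 ≤ _
    rw [h1]
    refine mul_le_mul_of_nonneg_left ?_ (Real.exp_pos _).le
    have h2 : (univ.filter (fun w => G.Adj v w)).card = G.degree v := by
      rw [← SimpleGraph.card_neighborFinset_eq_degree]
      congr 1
      ext w
      simp
    calc Real.exp (-(ε ^ 2 / 4)) ^ (G.degree v)
        = ∏ w ∈ univ.filter (fun w => G.Adj v w), Real.exp (-(ε ^ 2 / 4)) := by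
          rw [prod_const, h2]
      _ ≤ ∏ w ∈ univ.filter (fun w => G.Adj v w), (1 - Real.exp (-(ε ^ 2 / 4 * G.degree w))) := by
          refine prod_le_prod (fun _ _ => (Real.exp_pos _).le) fun w _ => ?_
          linarith [hx w]

open Filter in
theorem asymp_third {ε : ℝ} (hε : 0 < ε) : ∀ᶠ d : ℕ in atTop,
    1 ≤ d ∧ 1 ≤ ε * d ∧ Real.exp (-(ε ^ 2 / 4 * d)) ≤ 1 - Real.exp (-(ε ^ 2 / 4)) := by
  have hc : 0 < ε ^ 2 / 4 := by positivity
  have h1 : Tendsto (fun d : ℕ => (d : ℝ)) atTop atTop := tendsto_natCast_atTop_atTop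
  have h2 : Tendsto (fun d : ℕ => Real.exp (-(ε ^ 2 / 4 * d))) atTop (nhds 0) :=
    Real.tendsto_exp_neg_atTop_nhds_zero.comp (h1.const_mul_atTop hc)
  have h3 : 0 < 1 - Real.exp (-(ε ^ 2 / 4)) := by
    have := Real.exp_lt_one_iff.2 (neg_lt_zero.2 hc)
    linarith
  filter_upwards [eventually_ge_atTop 1, (h1.const_mul_atTop hε).eventually_ge_atTop 1,
    h2.eventually (eventually_le_nhds h3)] with d a1 a2 a3
  exact ⟨a1, a2, a3⟩

end Pool.Agent.H64MD
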